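import Mathlib
import Pool.Agent.H663R5.BF.Main

/-!
# Beck-Fiala: discrepancy at most `t - 1` for maximum degree `t ≥ 9`
-/

namespace Pool.Agent.Results.MP_e8ee11_co.BelowDegree

open H294BF Pool.Agent.H663R5.BF

theorem result :
    (∀ (m n : ℕ) (A : Fin m → Fin n → ℝ) (T : Fin m → ℝ), (∀ i, 0 ≤ T i) →
      (∀ S : Finset (Fin n), S.Nonempty →
        (Finset.univ.filter (fun i => T i < ∑ j ∈ S, |A i j|)).card < S.card) →
      ∃ x : Fin n → ℝ, (∀ j, x j = 1 ∨ x j = -1) ∧ ∀ i, |∑ j, A i j * x j| ≤ T i) ∧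
    (∀ (t m n : ℕ) (S : Fin m → Finset (Fin n)), 9 ≤ t →
      (∀ i, (Finset.univ.filter (fun j => i ∈ S j)).card ≤ t) →
      ∃ χ : Fin n → ℤ, (∀ i, χ i = 1 ∨ χ i = -1) ∧ ∀ j, |∑ i ∈ S j, χ i| ≤ (t : ℤ) - 1) ∧
    (∀ t : ℕ, 1 ≤ t →
      ((∀ (m n : ℕ) (S : Fin m → Finset (Fin n)),
          (∀ i, (Finset.univ.filter (fun j => i ∈ S j)).card ≤ t) →
          ∃ χ : Fin n → ℤ, (∀ i, χ i = 1 ∨ χ i = -1) ∧ ∀ j, |∑ i ∈ S j, χ i| ≤ (t : ℤ) - 1) ↔
        ∀ (m n : ℕ) (S : Fin m → Finset (Fin n)), (∀ j, (S j).card = t) →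
          (∀ i, (Finset.univ.filter (fun j => i ∈ S j)).card = t) →
          ∃ χ : Fin n → ℤ, (∀ i, χ i = 1 ∨ χ i = -1) ∧
            ∀ j, (∃ i ∈ S j, χ i = 1) ∧ ∃ i ∈ S j, χ i = -1)) := by
  have hsz : ∀ b : Bool, sz b = 1 ∨ sz b = -1 := fun b => by cases b <;> simp [sz]
  refine ⟨?_, ?_, ?_⟩
  · intro m n A T hT hH
    obtain ⟨x, hx⟩ := hall_signing A T hT hH
    have hsg : ∀ b : Bool, sg b = 1 ∨ sg b = -1 := fun b => by cases b <;> simp [sg]
    exact ⟨fun j => sg (x j), fun j => hsg _, hx⟩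
  · intro t m n S ht hdeg
    obtain ⟨x, hx⟩ := bool_signing t ht S hdeg
    exact ⟨fun i => sz (x i), fun i => hsz _, hx⟩
  · intro t ht
    constructor
    · intro h m n S hcard hdeg
      obtain ⟨χ, h1, h2⟩ := h m n S fun i => (hdeg i).le
      refine ⟨χ, h1, fun j => ?_⟩
      have h3 := h2 j
      have h4 := hcard j
      constructor
      · by_contra hcon
        push Not at hcon
        have h5 : ∑ i ∈ S j, χ i = ∑ i ∈ S j, (-1 : ℤ) := Finset.sum_congr rfl fun i hi =>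
          (h1 i).resolve_left (hcon i hi)
        rw [h5, Finset.sum_const, h4, nsmul_eq_mul] at h3
        rcases abs_le.1 h3 with ⟨h6, _⟩
        linarith
      · by_contra hcon
        push Not at hcon
        have h5 : ∑ i ∈ S j, χ i = ∑ i ∈ S j, (1 : ℤ) := Finset.sum_congr rfl fun i hi =>
          (h1 i).resolve_right (hcon i hi)
        rw [h5, Finset.sum_const, h4, nsmul_eq_mul] at h3
        rcases abs_le.1 h3 with ⟨_, h6⟩
        linarith
    · intro h m n S hdeg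
      obtain ⟨x, hx⟩ := bool_signing_of t ht (fun m n S h1 h2 => by
        obtain ⟨χ, h3, h4⟩ := h m n S h1 h2
        refine ⟨fun i => decide (χ i = 1), fun j => ⟨?_, ?_⟩⟩
        · obtain ⟨⟨v, hv, hv1⟩, _⟩ := h4 j
          exact ⟨v, hv, by simp [hv1]⟩
        · obtain ⟨_, ⟨v, hv, hv1⟩⟩ := h4 j
          exact ⟨v, hv, by simp [hv1]⟩) S hdeg
      exact ⟨fun i => sz (x i), fun i => hsz _, hx⟩

end Pool.Agent.Results.MP_e8ee11_co.BelowDegree
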