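import Pool.Agent.H422R3.Kom.Final

/-!
# The Beck–Fiala problem for set systems with an elementary abelian 2-group of symmetries
-/

namespace Pool.Agent.Results.MP_e8ee11_co.InvolutiveOrbits

open MulAction

/-- `H` is a group in which every element has order at most `2`; it acts freely on the set `M` of
indices of the sets and freely on the set `V` of points, and the system `S : M → Finset V` is
invariant. -/
def InvolutiveSymmetry (H M V : Type) [Group H] [MulAction H M] [MulAction H V]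
    (S : M → Finset V) : Prop :=
  (∀ a : H, a * a = 1) ∧ (∀ (a : H) (i : M), a • i = i → a = 1) ∧
    (∀ (a : H) (x : V), a • x = x → a = 1) ∧ ∀ (a : H) (i : M) (x : V), a • x ∈ S (a • i) ↔ x ∈ S i

/-- number of orbits of `H` on the set `V` of points -/
noncomputable def orbits (H V : Type) [Group H] [MulAction H V] : ℕ :=
  Nat.card (orbitRel.Quotient H V)

theorem result : ∃ C : ℝ, ∀ (H M V : Type) [Group H] [Finite H] [Fintype M] [Fintype V]
    [MulAction H M] [MulAction H V] (S : M → Finset V) (t : ℕ), InvolutiveSymmetry H M V S →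
    1 ≤ t → (∀ x : V, Nat.card {i : M // x ∈ S i} ≤ t) →
    (∃ χ : V → ℤ, (∀ x, χ x = 1 ∨ χ x = -1) ∧
      ∀ i, ((|∑ x ∈ S i, χ x| : ℤ) : ℝ) ≤ Real.sqrt t * Real.sqrt (orbits H V)) ∧
    (∃ χ : V → ℤ, (∀ x, χ x = 1 ∨ χ x = -1) ∧
      ∀ i, ((|∑ x ∈ S i, χ x| : ℤ) : ℝ) ≤
        C * Real.sqrt t * (1 + Real.log (orbits H V)) ^ (5 / 4 : ℝ)) := by
  classical
  refine ⟨280000000, ?_⟩
  intro H M V _ _ _ _ _ _ S t hs ht hdeg
  have htR : (0 : ℝ) < t := by exact_mod_cast ht
  have hsq : 0 < Real.sqrt t := Real.sqrt_pos.mpr htR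
  have hcol : ∀ x : V, ∑ i : M, (if x ∈ S i then (1 : ℝ) / Real.sqrt t else 0) ^ 2 ≤ 1 := by
    intro x
    have h1 : ∀ i, (if x ∈ S i then (1 : ℝ) / Real.sqrt t else 0) ^ 2 =
        if x ∈ S i then (1 : ℝ) / t else 0 := by
      intro i
      split_ifs
      · rw [div_pow, Real.sq_sqrt htR.le, one_pow]
      · norm_num
    simp_rw [h1]
    rw [← Finset.sum_filter, Finset.sum_const, nsmul_eq_mul, ← Fintype.card_subtype,
      ← Nat.card_eq_fintype_card, mul_one_div, div_le_one htR]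
    exact_mod_cast hdeg x
  obtain ⟨⟨ε, hε, hb⟩, ⟨ε', hε', hb'⟩⟩ := Pool.Agent.H422R3.Kom.final (H := H) (R := M) (C := V)
    hs.1 hs.2.1 hs.2.2.1 (fun i x => if x ∈ S i then (1 : ℝ) / Real.sqrt t else 0)
    (fun a i x => by simp only [hs.2.2.2 a i x]) hcol
  have conv : ∀ (ε : V → ℝ), (∀ x, ε x = 1 ∨ ε x = -1) → ∀ B : ℝ,
      (∀ i, |∑ x, (if x ∈ S i then (1 : ℝ) / Real.sqrt t else 0) * ε x| ≤ B) →
      ∃ χ : V → ℤ, (∀ x, χ x = 1 ∨ χ x = -1) ∧
        ∀ i, ((|∑ x ∈ S i, χ x| : ℤ) : ℝ) ≤ Real.sqrt t * B := by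
    intro ε hε B hB
    refine ⟨fun x => if ε x = 1 then 1 else -1, ?_, ?_⟩
    · intro x
      dsimp only
      split_ifs <;> simp
    · intro i
      have h1 : ∀ x, (((if ε x = 1 then 1 else -1 : ℤ)) : ℝ) = ε x := by
        intro x
        rcases hε x with h | h
        · rw [h]; simp
        · rw [h]; norm_num
      have h2 : ∑ x, (if x ∈ S i then (1 : ℝ) / Real.sqrt t else 0) * ε x =
          (∑ x ∈ S i, ε x) / Real.sqrt t := by
        rw [Finset.sum_div]
        have : ∀ x, (if x ∈ S i then (1 : ℝ) / Real.sqrt t else 0) * ε x =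
            if x ∈ S i then ε x / Real.sqrt t else 0 := by
          intro x
          split_ifs
          · ring
          · ring
        simp_rw [this]
        rw [← Finset.sum_filter]
        congr 1
        ext x
        simp
      have h3 := hB i
      rw [h2, abs_div, abs_of_pos hsq, div_le_iff₀ hsq] at h3
      push_cast
      have h4 : ∑ x ∈ S i, (((if ε x = 1 then 1 else -1 : ℤ)) : ℝ) = ∑ x ∈ S i, ε x :=
        Finset.sum_congr rfl fun x _ => h1 x
      push_cast at h4
      rw [h4]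
      linarith
  refine ⟨?_, ?_⟩
  · exact conv ε hε _ hb
  · obtain ⟨χ, h1, h2⟩ := conv ε' hε' _ hb'
    refine ⟨χ, h1, fun i => le_trans (h2 i) (le_of_eq ?_)⟩
    unfold orbits
    ring

end Pool.Agent.Results.MP_e8ee11_co.InvolutiveOrbits
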